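import Pool.Agent.H41.SF.Mertens

set_option autoImplicit false

/-! Prime number estimates of Chebyshev and Mertens type.  Used for MP_4f0605_nt, 3.10. -/

namespace Pool.Agent.H34.NA

open Finset Filter Topology

/-- Mertens' first theorem for the sum over primes. -/
theorem mertens_primes : ∃ C : ℝ, 0 ≤ C ∧ ∀ N : ℕ, 1 ≤ N →
    |∑ p ∈ (Ioc 0 N).filter Nat.Prime, Real.log p / p - Real.log N| ≤ C := by
  obtain ⟨C, hC, h⟩ := Pool.Agent.H41.SF.mertens_AP (q := 1) (a := 1) isUnit_one
  refine ⟨C, hC, fun N hN => ?_⟩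
  have h1 := h N hN
  have h2 : (Ioc 0 N).filter (fun p : ℕ => p.Prime ∧ (p : ZMod 1) = 1)
      = (Ioc 0 N).filter Nat.Prime := by
    refine Finset.filter_congr fun p _ => ?_
    simp only [and_iff_left_iff_imp]
    intro _
    exact Subsingleton.elim _ _
  rw [h2] at h1
  simpa using h1

/-- Primes in a window `(y, x]`: lower bound for the sum of `log p / p`. -/
theorem mertens_window : ∃ C : ℝ, 0 ≤ C ∧ ∀ y x : ℕ, 1 ≤ y → y ≤ x →
    |∑ p ∈ (Ioc y x).filter Nat.Prime, Real.log p / p - (Real.log x - Real.log y)| ≤ C := by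
  obtain ⟨C, hC, h⟩ := mertens_primes
  refine ⟨2 * C, by linarith, fun y x hy hyx => ?_⟩
  have h1 := h y hy
  have h2 := h x (hy.trans hyx)
  have h3 : ∑ p ∈ (Ioc 0 x).filter Nat.Prime, Real.log p / p
      = ∑ p ∈ (Ioc 0 y).filter Nat.Prime, Real.log p / p
        + ∑ p ∈ (Ioc y x).filter Nat.Prime, Real.log p / p := by
    rw [← Finset.sum_union]
    · congr 1
      rw [← Finset.filter_union, Finset.Ioc_union_Ioc_eq_Ioc (Nat.zero_le y) hyx]
    · refine Finset.disjoint_filter_filter ?_
      rw [Finset.disjoint_left]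
      intro p hp1 hp2
      rw [Finset.mem_Ioc] at hp1 hp2
      omega
  rw [abs_le] at h1 h2 ⊢
  constructor <;> linarith [h1.1, h1.2, h2.1, h2.2]

/-- Chebyshev upper bound. -/
theorem theta_le_two_mul (x : ℝ) (hx : 0 ≤ x) : Chebyshev.theta x ≤ 2 * x := by
  have h1 := Chebyshev.theta_le_log4_mul_x hx
  have h2 : Real.log 4 ≤ 2 := by
    have : Real.log 4 = 2 * Real.log 2 := by
      rw [show (4 : ℝ) = 2 ^ 2 by norm_num, Real.log_pow]; norm_num
    rw [this]
    linarith [Real.log_two_lt_d9]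
  nlinarith

/-- Chebyshev lower bound. -/
theorem half_le_theta : ∃ x0 : ℝ, 1 ≤ x0 ∧ ∀ x : ℝ, x0 ≤ x → x / 2 ≤ Chebyshev.theta x := by
  -- `log x = o(x ^ (1/4))`
  have h1 : ∀ᶠ x : ℝ in atTop, Real.log x ≤ x ^ (1/4 : ℝ) * (1/100) := by
    have := (isLittleO_log_rpow_atTop (show (0:ℝ) < 1/4 by norm_num)).bound
      (show (0:ℝ) < 1/100 by norm_num)
    filter_upwards [this, eventually_ge_atTop 1] with x hx h1
    rw [Real.norm_eq_abs, Real.norm_eq_abs, abs_of_nonneg (Real.log_nonneg h1),
      abs_of_nonneg (by positivity)] at hx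
    linarith
  have h2 : ∀ᶠ x : ℝ in atTop, x / 2 ≤ Chebyshev.theta x := by
    filter_upwards [h1, eventually_ge_atTop 10000] with x hx h3
    have h4 := Chebyshev.theta_ge' (x := x) (by linarith)
    have hx0 : (0:ℝ) < x := by linarith
    set u : ℝ := x ^ (1/4 : ℝ) with hu
    have hu0 : 0 < u := by positivity
    have hu4 : u ^ 4 = x := by
      rw [hu, ← Real.rpow_natCast, ← Real.rpow_mul hx0.le]; norm_num
    have hsq : √x = u ^ 2 := by
      rw [← hu4, show u ^ 4 = (u ^ 2) ^ 2 by ring, Real.sqrt_sq (by positivity)]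
    have hu10 : 10 ≤ u := by
      by_contra hlt
      push Not at hlt
      have : u ^ 4 < 10 ^ 4 := by gcongr
      rw [hu4] at this
      linarith
    have hlog2 : Real.log (x + 2) ≤ Real.log x + 1 := by
      have : x + 2 ≤ x * Real.exp 1 := by
        have := Real.add_one_le_exp (1:ℝ)
        nlinarith
      calc Real.log (x + 2) ≤ Real.log (x * Real.exp 1) := Real.log_le_log (by linarith) this
        _ = Real.log x + 1 := by
          rw [Real.log_mul (by positivity) (by positivity), Real.log_exp]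
    have hl2 := Real.log_two_gt_d9
    rw [hsq] at h4
    have h5 : 2 * u ^ 2 * Real.log x ≤ 2 * u ^ 2 * (u * (1/100)) := by gcongr
    have h6 : u ^ 3 ≤ u ^ 4 / 10 := by
      have : u ^ 4 = u ^ 3 * u := by ring
      rw [this]
      have : 0 < u ^ 3 := by positivity
      nlinarith
    have h7 : Real.log x ≤ x / 100 := by
      have : u ≤ x := by
        rw [← hu4]
        calc u = u ^ 1 := (pow_one u).symm
          _ ≤ u ^ 4 := pow_le_pow_right₀ (by linarith) (by norm_num)
      linarith
    have h8 : 0.69 * (x - 1) ≤ (x - 1) * Real.log 2 := by nlinarith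
    have h9 : 2 * u ^ 2 * (u * (1/100)) = u ^ 3 / 50 := by ring
    rw [h9] at h5
    rw [hu4] at h6
    linarith
  obtain ⟨a, ha⟩ := eventually_atTop.1 h2
  exact ⟨max a 1, le_max_right _ _, fun x hx => ha x ((le_max_left _ _).trans hx)⟩

/-- The trivial upper bound for the sum of `log p / p`. -/
theorem sum_log_div_le (N : ℕ) :
    ∑ p ∈ (Ioc 0 N).filter Nat.Prime, Real.log p / p ≤ (1 + Real.log N) ^ 2 := by
  rcases Nat.eq_zero_or_pos N with rfl | hN
  · simp
  have h1 : ∑ p ∈ (Ioc 0 N).filter Nat.Prime, Real.log p / p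
      ≤ ∑ n ∈ Ioc 0 N, Real.log N * (1 / n) := by
    calc ∑ p ∈ (Ioc 0 N).filter Nat.Prime, Real.log p / p
        ≤ ∑ n ∈ Ioc 0 N, Real.log n / n := by
          refine Finset.sum_le_sum_of_subset_of_nonneg (Finset.filter_subset _ _) ?_
          intro n hn _
          rw [Finset.mem_Ioc] at hn
          have : (1:ℝ) ≤ n := by exact_mod_cast hn.1
          have := Real.log_nonneg this
          positivity
      _ ≤ ∑ n ∈ Ioc 0 N, Real.log N * (1 / n) := by
          refine Finset.sum_le_sum fun n hn => ?_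
          rw [Finset.mem_Ioc] at hn
          have hn0 : (0:ℝ) < n := by exact_mod_cast hn.1
          have : Real.log n ≤ Real.log N :=
            Real.log_le_log hn0 (by exact_mod_cast hn.2)
          rw [mul_one_div]
          gcongr
  have h2 : ∑ n ∈ Ioc 0 N, (1 / n : ℝ) ≤ 1 + Real.log N := by
    have h3 := harmonic_le_one_add_log N
    have h4 : ((harmonic N : ℚ) : ℝ) = ∑ n ∈ Ioc 0 N, (1 / n : ℝ) := by
      rw [harmonic_eq_sum_Icc]
      push_cast
      refine Finset.sum_congr ?_ fun n _ => by rw [one_div]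
      ext n; simp only [Finset.mem_Icc, Finset.mem_Ioc]; omega
    rw [h4] at h3
    exact h3
  have h5 : 0 ≤ Real.log N := Real.log_nonneg (by exact_mod_cast hN)
  rw [← Finset.mul_sum] at h1
  nlinarith

end Pool.Agent.H34.NA
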