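import Mathlib

set_option autoImplicit false

/-! Fewer forms than variables over an algebraically closed field have a nontrivial common
zero.  Used for MP_4f0605_nt, 5.3. -/

namespace Pool.Agent.H34.NA

open MvPolynomial

section chain

variable {Ω σ : Type*} [Field Ω]

/-- The endomorphism killing the variables in `S`. -/
noncomputable def kill (Ω : Type*) [Field Ω] {σ : Type*} (S : Set σ) :
    MvPolynomial σ Ω →ₐ[Ω] MvPolynomial σ Ω := by
  classical
  exact aeval (fun i => if i ∈ S then 0 else X i)

theorem kill_X_mem (S : Set σ) (i : σ) (hi : i ∈ S) : kill Ω S (X i) = 0 := by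
  classical
  simp [kill, hi]

theorem kill_X_notMem (S : Set σ) (i : σ) (hi : i ∉ S) : kill Ω S (X i) = X i := by
  classical
  simp [kill, hi]

theorem kill_kill (S S' : Set σ) (h : S ⊆ S') (p : MvPolynomial σ Ω) :
    kill Ω S' (kill Ω S p) = kill Ω S' p := by
  classical
  rw [← AlgHom.comp_apply]
  congr 1
  refine MvPolynomial.algHom_ext fun i => ?_
  rw [AlgHom.comp_apply]
  by_cases hi : i ∈ S
  · rw [kill_X_mem S i hi, kill_X_mem S' i (h hi), map_zero]
  · rw [kill_X_notMem S i hi]

/-- The prime ideal generated by the variables in `S`. -/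
noncomputable def killPrime (Ω : Type*) [Field Ω] {σ : Type*} (S : Set σ) :
    PrimeSpectrum (MvPolynomial σ Ω) :=
  ⟨RingHom.ker (kill Ω S), RingHom.ker_isPrime _⟩

theorem killPrime_lt {S S' : Set σ} (h : S ⊂ S') : killPrime Ω S < killPrime Ω S' := by
  rw [lt_iff_le_not_ge]
  constructor
  · intro p hp
    change kill Ω S p = 0 at hp
    change kill Ω S' p = 0
    rw [← kill_kill S S' h.1, hp, map_zero]
  · intro hle
    obtain ⟨i, hi', hi⟩ := Set.exists_of_ssubset h
    have h1 : X i ∈ RingHom.ker (kill Ω S) := hle (by
      change kill Ω S' (X i) = 0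
      exact kill_X_mem S' i hi')
    rw [RingHom.mem_ker, kill_X_notMem S i hi] at h1
    exact X_ne_zero i h1

theorem card_le_height_killPrime_univ [Fintype σ] :
    (Fintype.card σ : ℕ∞) ≤ Order.height (killPrime Ω (Set.univ : Set σ)) := by
  classical
  let e := Fintype.equivFin σ
  set n := Fintype.card σ with hn
  let p : LTSeries (PrimeSpectrum (MvPolynomial σ Ω)) :=
    { length := n
      toFun := fun j => killPrime Ω {i : σ | (e i : ℕ) < j}
      step := by
        intro j
        refine killPrime_lt ?_
        rw [Set.ssubset_iff_of_subset]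
        · refine ⟨e.symm j, ?_, ?_⟩
          · simp
          · simp
        · intro i hi
          simp only [Set.mem_ofPred_eq, Fin.val_castSucc, Fin.val_succ] at hi ⊢
          omega }
  have h1 := Order.length_le_height_last (p := p)
  have h2 : p.last = killPrime Ω (Set.univ : Set σ) := by
    change killPrime Ω {i : σ | (e i : ℕ) < (Fin.last n : Fin (n + 1))} = _
    congr 1
    ext i
    simp
  rw [h2] at h1
  exact h1

theorem killPrime_univ_asIdeal : (killPrime Ω (Set.univ : Set σ)).asIdeal
    = vanishingIdeal Ω {(0 : σ → Ω)} := by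
  classical
  ext p
  rw [mem_vanishingIdeal_singleton_iff]
  change kill Ω Set.univ p = 0 ↔ _
  have h1 : kill Ω (Set.univ : Set σ) p = C (aeval (0 : σ → Ω) p) := by
    have h2 : kill Ω (Set.univ : Set σ)
        = (Algebra.ofId Ω (MvPolynomial σ Ω)).comp (aeval (0 : σ → Ω)) := by
      refine MvPolynomial.algHom_ext fun i => ?_
      rw [kill_X_mem _ i (Set.mem_univ i)]
      simp
    rw [h2]
    rfl
  rw [h1]
  simp

end chain

/-- 5.3: homogeneous polynomials of positive degrees, fewer than variables, over an
algebraically closed field, have a common zero different from zero. -/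
theorem forms_common_zero {Ω κ σ : Type*} [Field Ω] [IsAlgClosed Ω] [Fintype κ] [Fintype σ]
    (hcard : Fintype.card κ < Fintype.card σ) (f : κ → MvPolynomial σ Ω) (d : κ → ℕ)
    (hd : ∀ i, 0 < d i) (hf : ∀ i, (f i).IsHomogeneous (d i)) :
    ∃ x : σ → Ω, x ≠ 0 ∧ ∀ i, eval x (f i) = 0 := by
  classical
  by_contra hcon
  push Not at hcon
  set s : Finset (MvPolynomial σ Ω) := Finset.univ.image f with hs
  have hzero : zeroLocus Ω (Ideal.span (s : Set (MvPolynomial σ Ω))) = {(0 : σ → Ω)} := by
    rw [zeroLocus_span]
    ext x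
    simp only [hs, Finset.coe_image, Finset.coe_univ, Set.image_univ, Set.mem_range,
      forall_exists_index, forall_apply_eq_imp_iff, Set.mem_ofPred_eq, Set.mem_singleton_iff]
    constructor
    · intro h
      by_contra hx
      obtain ⟨i, hi⟩ := hcon x hx
      exact hi (by simpa [aeval_eq_eval] using h i)
    · rintro rfl i
      have h1 : eval (0 : σ → Ω) (f i) = 0 := by
        have h3 : constantCoeff (f i) = 0 := by
          by_contra h4
          have h5 := (hf i) (d := 0) (by simpa [constantCoeff_eq] using h4)
          simp at h5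
          exact absurd h5 (hd i).ne
        rw [← h3]
        exact congrFun (congrArg DFunLike.coe (eval_zero (R := Ω) (σ := σ))) (f i)
      simpa [aeval_eq_eval] using h1
  have hrad : (Ideal.span (s : Set (MvPolynomial σ Ω))).radical
      = (killPrime Ω (Set.univ : Set σ)).asIdeal := by
    rw [← vanishingIdeal_zeroLocus_eq_radical (K := Ω), hzero, killPrime_univ_asIdeal]
  have hmin : (killPrime Ω (Set.univ : Set σ)).asIdeal
      ∈ (Ideal.span (s : Set (MvPolynomial σ Ω))).minimalPrimes := by
    refine ⟨⟨(killPrime Ω (Set.univ : Set σ)).2, ?_⟩, ?_⟩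
    · rw [← hrad]; exact Ideal.le_radical
    · rintro P ⟨hP, hle⟩ -
      rw [← hrad]
      exact (Ideal.IsPrime.radical_le_iff hP).2 hle
  have h1 := Ideal.height_le_card_of_mem_minimalPrimes_span_finset hmin
  have h2 : (killPrime Ω (Set.univ : Set σ)).asIdeal.height
      = Order.height (killPrime Ω (Set.univ : Set σ)) :=
    PrimeSpectrum.height_eq_orderHeight _
  rw [h2] at h1
  have h3 := card_le_height_killPrime_univ (Ω := Ω) (σ := σ)
  have h4 : (s.card : ℕ∞) ≤ Fintype.card κ := by
    exact_mod_cast Finset.card_image_le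
  have h5 := h3.trans (h1.trans h4)
  have h6 : Fintype.card σ ≤ Fintype.card κ := by exact_mod_cast h5
  omega

end Pool.Agent.H34.NA
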