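import Mathlib

set_option autoImplicit false

/-! Consequences of Newton's identities: equal power sums give equal elementary symmetric
functions and equal multisets.  Used for MP_4f0605_nt, 6.6, 6.8, 8.1, 9.3. -/

namespace Pool.Agent.H34.NA

open Finset

section

variable {L σ τ : Type*} [CommRing L] [Fintype σ] [Fintype τ]

/-- Newton's identity for the values. -/
theorem newton_value (x : σ → L) (k : ℕ) :
    (k : L) * (univ.val.map x).esymm k = (-1) ^ (k + 1) *
      ∑ a ∈ antidiagonal k with a.1 < k,
        (-1) ^ a.1 * (univ.val.map x).esymm a.1 * ∑ i, x i ^ a.2 := by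
  have h := congrArg (MvPolynomial.aeval x) (MvPolynomial.mul_esymm_eq_sum σ ℤ k)
  simp only [map_mul, map_natCast, map_pow, map_neg, map_one, map_sum,
    MvPolynomial.aeval_esymm_eq_multiset_esymm, MvPolynomial.psum, MvPolynomial.aeval_X] at h
  exact h

/-- Equal power sums `1..k` give equal elementary symmetric functions `0..k`. -/
theorem esymm_eq_of_psum_eq [IsDomain L] [CharZero L] (x : σ → L) (y : τ → L) (k : ℕ)
    (h : ∀ j, 1 ≤ j → j ≤ k → ∑ i, x i ^ j = ∑ i, y i ^ j) (j : ℕ) (hj : j ≤ k) :
    (univ.val.map x).esymm j = (univ.val.map y).esymm j := by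
  induction j using Nat.strong_induction_on with
  | _ j ih =>
    rcases Nat.eq_zero_or_pos j with rfl | hpos
    · simp [Multiset.esymm, Multiset.powersetCard_zero_left]
    · have h1 := newton_value x j
      have h2 := newton_value y j
      have h3 : (j : L) * (univ.val.map x).esymm j = (j : L) * (univ.val.map y).esymm j := by
        rw [h1, h2]
        congr 1
        refine Finset.sum_congr rfl fun a ha => ?_
        rw [Finset.mem_filter, HasAntidiagonal.mem_antidiagonal] at ha
        rw [ih a.1 ha.2 (by omega), h a.2 (by omega) (by omega)]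
      exact mul_left_cancel₀ (by exact_mod_cast hpos.ne') h3

theorem prod_X_sub_C_eq_multiset (x : σ → L) :
    (∏ i, (Polynomial.X - Polynomial.C (x i)))
      = ((univ.val.map x).map fun t => Polynomial.X - Polynomial.C t).prod := by
  rw [Multiset.map_map]
  rfl

/-- Equal power sums `1..k`: the top coefficients of `∏ (X - x_i)` and `∏ (X - y_j)` agree. -/
theorem coeff_prod_eq_of_psum_eq [IsDomain L] [CharZero L] (x : σ → L) (y : τ → L)
    (hcard : Fintype.card σ = Fintype.card τ) (k : ℕ)
    (h : ∀ j, 1 ≤ j → j ≤ k → ∑ i, x i ^ j = ∑ i, y i ^ j) (n : ℕ)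
    (hn : Fintype.card σ ≤ n + k) :
    (∏ i, (Polynomial.X - Polynomial.C (x i))).coeff n
      = (∏ i, (Polynomial.X - Polynomial.C (y i))).coeff n := by
  have hcx : Multiset.card (univ.val.map x) = Fintype.card σ := by simp
  have hcy : Multiset.card (univ.val.map y) = Fintype.card σ := by simp [hcard]
  rw [prod_X_sub_C_eq_multiset, prod_X_sub_C_eq_multiset]
  by_cases hle : n ≤ Fintype.card σ
  · rw [Multiset.prod_X_sub_C_coeff _ (by omega), Multiset.prod_X_sub_C_coeff _ (by omega),
      hcx, hcy, esymm_eq_of_psum_eq x y k h _ (by omega)]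
  · push Not at hle
    rw [Polynomial.coeff_eq_zero_of_natDegree_lt, Polynomial.coeff_eq_zero_of_natDegree_lt]
    · rw [Polynomial.natDegree_multiset_prod_X_sub_C_eq_card, hcy]; omega
    · rw [Polynomial.natDegree_multiset_prod_X_sub_C_eq_card, hcx]; omega

/-- The difference of the products has small degree. -/
theorem degree_prod_sub_lt [IsDomain L] [CharZero L] (x : σ → L) (y : τ → L)
    (hcard : Fintype.card σ = Fintype.card τ) (k : ℕ)
    (h : ∀ j, 1 ≤ j → j ≤ k → ∑ i, x i ^ j = ∑ i, y i ^ j) :
    ((∏ i, (Polynomial.X - Polynomial.C (x i)))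
      - ∏ i, (Polynomial.X - Polynomial.C (y i))).degree < ((Fintype.card σ - k : ℕ) : WithBot ℕ) := by
  rw [Polynomial.degree_lt_iff_coeff_zero]
  intro n hn
  rw [Polynomial.coeff_sub, coeff_prod_eq_of_psum_eq x y hcard k h n (by omega), sub_self]

/-- Equal power sums `1..card`: the products are equal. -/
theorem prod_eq_of_psum_eq [IsDomain L] [CharZero L] (x : σ → L) (y : τ → L)
    (hcard : Fintype.card σ = Fintype.card τ)
    (h : ∀ j, 1 ≤ j → j ≤ Fintype.card σ → ∑ i, x i ^ j = ∑ i, y i ^ j) :
    (∏ i, (Polynomial.X - Polynomial.C (x i))) = ∏ i, (Polynomial.X - Polynomial.C (y i)) := by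
  ext n
  exact coeff_prod_eq_of_psum_eq x y hcard _ h n (by omega)

/-- Equal power sums `1..card`: the multisets are equal. -/
theorem multiset_eq_of_psum_eq [IsDomain L] [CharZero L] (x : σ → L) (y : τ → L)
    (hcard : Fintype.card σ = Fintype.card τ)
    (h : ∀ j, 1 ≤ j → j ≤ Fintype.card σ → ∑ i, x i ^ j = ∑ i, y i ^ j) :
    univ.val.map x = univ.val.map y := by
  have h1 := prod_eq_of_psum_eq x y hcard h
  rw [prod_X_sub_C_eq_multiset, prod_X_sub_C_eq_multiset] at h1
  have h2 := congrArg Polynomial.roots h1
  rwa [Polynomial.roots_multiset_prod_X_sub_C, Polynomial.roots_multiset_prod_X_sub_C] at h2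

/-- Equal multisets of values: there is a bijection. -/
theorem exists_equiv_of_multiset_eq {M : Type*} [DecidableEq M] (x : σ → M) (y : τ → M)
    (h : univ.val.map x = univ.val.map y) : ∃ e : σ ≃ τ, ∀ i, x i = y (e i) := by
  classical
  have hcount : ∀ m : M, Fintype.card {i // x i = m} = Fintype.card {j // y j = m} := by
    intro m
    have h1 := congrArg (Multiset.count m) h
    rw [Multiset.count_map, Multiset.count_map] at h1
    rw [Fintype.card_subtype, Fintype.card_subtype]
    have e1 : (univ.filter fun i => x i = m).card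
        = Multiset.card (Multiset.filter (fun a => m = x a) univ.val) := by
      rw [Finset.card_def, Finset.filter_val]
      congr 1
      exact Multiset.filter_congr fun i _ => eq_comm
    have e2 : (univ.filter fun i => y i = m).card
        = Multiset.card (Multiset.filter (fun a => m = y a) univ.val) := by
      rw [Finset.card_def, Finset.filter_val]
      congr 1
      exact Multiset.filter_congr fun i _ => eq_comm
    rw [e1, e2, h1]
  let e : σ ≃ τ := (Equiv.sigmaFiberEquiv x).symm.trans
    ((Equiv.sigmaCongrRight fun m => Fintype.equivOfCardEq (hcount m)).trans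
      (Equiv.sigmaFiberEquiv y))
  refine ⟨e, fun i => ?_⟩
  have : y (e i) = x i := by
    simp only [e, Equiv.trans_apply]
    exact ((Fintype.equivOfCardEq (hcount (x i))) ⟨i, rfl⟩).2
  exact this.symm

/-- Equal power sums `1..card`: there is a bijection. -/
theorem exists_equiv_of_psum_eq [IsDomain L] [CharZero L] (x : σ → L) (y : τ → L)
    (hcard : Fintype.card σ = Fintype.card τ)
    (h : ∀ j, 1 ≤ j → j ≤ Fintype.card σ → ∑ i, x i ^ j = ∑ i, y i ^ j) :
    ∃ e : σ ≃ τ, ∀ i, x i = y (e i) := by
  classical
  exact exists_equiv_of_multiset_eq x y (multiset_eq_of_psum_eq x y hcard h)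

/-- The same for sums over finite subsets. -/
theorem exists_equiv_of_psum_eq_finset [IsDomain L] [CharZero L] {α β : Type*}
    (A : Finset α) (B : Finset β) (x : α → L) (y : β → L) (hcard : A.card = B.card)
    (h : ∀ j, 1 ≤ j → j ≤ A.card → ∑ i ∈ A, x i ^ j = ∑ i ∈ B, y i ^ j) :
    ∃ e : A ≃ B, ∀ i : A, x i = y (e i) := by
  refine exists_equiv_of_psum_eq (fun i : A => x i) (fun j : B => y j)
    (by simpa using hcard) fun j h1 h2 => ?_
  have := h j h1 (by simpa using h2)
  rw [Finset.sum_coe_sort A (fun i => x i ^ j), Finset.sum_coe_sort B (fun i => y i ^ j)]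
  exact this

end

end Pool.Agent.H34.NA
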