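import Pool.Agent.H34.NA.Count

set_option autoImplicit false

/-! Bezout's theorem in the plane: two plane polynomials without common factor have at most
`deg f * deg g` common zeros.  Used for MP_4f0605_nt, 6.2. -/

namespace Pool.Agent.H34.NA

open MvPolynomial Module

section plane

variable {K : Type*} [Field K]

private theorem cop_dvd {f g a b : MvPolynomial (Fin 2) K} (hcop : IsRelPrime f g)
    (h : f * a = g * b) : g ∣ a := by
  have h1 : g ∣ f * a := ⟨b, h⟩
  exact hcop.symm.dvd_of_dvd_mul_left h1

/-- `(a, b) ↦ f a + g b`. -/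
noncomputable def pairMap (f g : MvPolynomial (Fin 2) K) (t : ℕ) (hf : f.totalDegree ≤ t)
    (hg : g.totalDegree ≤ t) :
    (restrictTotalDegree (Fin 2) K (t - f.totalDegree) ×
      restrictTotalDegree (Fin 2) K (t - g.totalDegree)) →ₗ[K] restrictTotalDegree (Fin 2) K t where
  toFun x := ⟨f * x.1.1 + g * x.2.1, by
    rw [mem_restrictTotalDegree]
    refine (totalDegree_add _ _).trans (max_le ?_ ?_)
    · refine (totalDegree_mul _ _).trans ?_
      have := (mem_restrictTotalDegree _ _ _).1 x.1.2
      omega
    · refine (totalDegree_mul _ _).trans ?_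
      have := (mem_restrictTotalDegree _ _ _).1 x.2.2
      omega⟩
  map_add' x y := by
    apply Subtype.ext
    simp only [Prod.fst_add, Prod.snd_add, Submodule.coe_add]
    ring
  map_smul' c x := by
    apply Subtype.ext
    simp only [Prod.smul_fst, Prod.smul_snd, Submodule.coe_smul, RingHom.id_apply, smul_eq_C_mul]
    ring

theorem finrank_ker_pairMap_le (f g : MvPolynomial (Fin 2) K) (hg0 : g ≠ 0)
    (hcop : IsRelPrime f g) (t : ℕ) (hf : f.totalDegree ≤ t) (hg : g.totalDegree ≤ t) :
    finrank K (LinearMap.ker (pairMap f g t hf hg))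
      ≤ finrank K (restrictTotalDegree (Fin 2) K (t - f.totalDegree - g.totalDegree)) := by
  -- the map `c ↦ (g c, - f c)` is onto the kernel
  by_cases hfg : f.totalDegree + g.totalDegree ≤ t
  · let ψ : restrictTotalDegree (Fin 2) K (t - f.totalDegree - g.totalDegree) →ₗ[K]
        (restrictTotalDegree (Fin 2) K (t - f.totalDegree) ×
          restrictTotalDegree (Fin 2) K (t - g.totalDegree)) :=
      { toFun := fun c => (⟨g * c.1, by
            rw [mem_restrictTotalDegree]
            refine (totalDegree_mul _ _).trans ?_
            have := (mem_restrictTotalDegree _ _ _).1 c.2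
            omega⟩, ⟨- (f * c.1), by
            rw [mem_restrictTotalDegree, totalDegree_neg]
            refine (totalDegree_mul _ _).trans ?_
            have := (mem_restrictTotalDegree _ _ _).1 c.2
            omega⟩)
        map_add' := fun x y => by
          refine Prod.ext (Subtype.ext ?_) (Subtype.ext ?_)
          · simp only [Submodule.coe_add, Prod.fst_add]; ring
          · simp only [Submodule.coe_add, Prod.snd_add]; ring
        map_smul' := fun c x => by
          refine Prod.ext (Subtype.ext ?_) (Subtype.ext ?_)
          · simp only [Submodule.coe_smul, RingHom.id_apply, Prod.smul_fst, smul_eq_C_mul]; ring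
          · simp only [Submodule.coe_smul, RingHom.id_apply, Prod.smul_snd, smul_eq_C_mul]; ring }
    have hle : LinearMap.ker (pairMap f g t hf hg) ≤ LinearMap.range ψ := by
      rintro ⟨⟨a, ha⟩, ⟨b, hb⟩⟩ hx
      have h1 : f * a + g * b = 0 := by
        have := congrArg Subtype.val (LinearMap.mem_ker.1 hx)
        exact this
      have h2 : f * a = g * (-b) := by linear_combination h1
      obtain ⟨c, rfl⟩ := cop_dvd hcop h2
      have h3 : b = -(f * c) := by
        have h4 : g * (f * c + b) = 0 := by linear_combination h1
        rcases mul_eq_zero.1 h4 with h5 | h5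
        · exact absurd h5 hg0
        · linear_combination h5
      subst h3
      have hc : c ∈ restrictTotalDegree (Fin 2) K (t - f.totalDegree - g.totalDegree) := by
        rw [mem_restrictTotalDegree]
        by_cases hc0 : c = 0
        · rw [hc0, totalDegree_zero]; omega
        · have h6 := (mem_restrictTotalDegree _ _ _).1 ha
          rw [totalDegree_mul_of_isDomain hg0 hc0] at h6
          omega
      exact ⟨⟨c, hc⟩, rfl⟩
    calc finrank K (LinearMap.ker (pairMap f g t hf hg))
        ≤ finrank K (LinearMap.range ψ) := Submodule.finrank_mono hle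
      _ ≤ _ := LinearMap.finrank_range_le ψ
  · -- then the kernel is zero
    have hker : LinearMap.ker (pairMap f g t hf hg) = ⊥ := by
      rw [eq_bot_iff]
      rintro ⟨⟨a, ha⟩, ⟨b, hb⟩⟩ hx
      have h1 : f * a + g * b = 0 := by
        have := congrArg Subtype.val (LinearMap.mem_ker.1 hx)
        exact this
      have h2 : f * a = g * (-b) := by linear_combination h1
      obtain ⟨c, rfl⟩ := cop_dvd hcop h2
      have hc0 : c = 0 := by
        by_contra hc0
        have h6 := (mem_restrictTotalDegree _ _ _).1 ha
        rw [totalDegree_mul_of_isDomain hg0 hc0] at h6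
        omega
      subst hc0
      have h3 : b = 0 := by
        rw [mul_zero, mul_zero, zero_add] at h1
        exact (mul_eq_zero.1 h1).resolve_left hg0
      subst h3
      simp only [mul_zero, Submodule.mem_bot]
      rfl
    rw [hker, finrank_bot]
    exact Nat.zero_le _

private theorem arith (m m' u A B C D R Ke Ke2 : ℕ)
    (n1 : 2 * A = (m + m' + u + 2) * (m + m' + u + 1))
    (n2 : 2 * B = (m' + u + 2) * (m' + u + 1)) (n3 : 2 * C = (m + u + 2) * (m + u + 1))
    (n4 : 2 * D = (u + 2) * (u + 1)) (h2 : u + Ke = A) (h3 : R + Ke2 = B + C)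
    (h5 : R ≤ Ke) (h6 : Ke2 ≤ D) : u ≤ m * m' := by
  nlinarith

/-- 6.2: plane Bezout inequality. -/
theorem plane_bezout (f g : MvPolynomial (Fin 2) K) (hg0 : g ≠ 0)
    (hcop : IsRelPrime f g) (S : Finset (Fin 2 → K))
    (hS : ∀ p ∈ S, eval p f = 0 ∧ eval p g = 0) :
    S.card ≤ f.totalDegree * g.totalDegree := by
  classical
  have hft : f.totalDegree ≤ f.totalDegree + g.totalDegree + S.card := by omega
  have hgt : g.totalDegree ≤ f.totalDegree + g.totalDegree + S.card := by omega
  have h1 : finrank K (LinearMap.range (evalOn S (f.totalDegree + g.totalDegree + S.card)))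
      = S.card := by
    rw [LinearMap.range_eq_top.2 (evalOn_surjective S _ (by omega)), finrank_top]
    simp
  have h2 := LinearMap.finrank_range_add_finrank_ker
    (evalOn S (f.totalDegree + g.totalDegree + S.card))
  have h3 := LinearMap.finrank_range_add_finrank_ker (pairMap f g _ hft hgt)
  have h4 : LinearMap.range (pairMap f g _ hft hgt)
      ≤ LinearMap.ker (evalOn S (f.totalDegree + g.totalDegree + S.card)) := by
    rintro _ ⟨x, rfl⟩
    rw [LinearMap.mem_ker]
    funext p
    obtain ⟨e1, e2⟩ := hS p.1 p.2
    simp [evalOn, pairMap, e1, e2]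
  have h5 := Submodule.finrank_mono h4
  have h6 := finrank_ker_pairMap_le f g hg0 hcop _ hft hgt
  have N : ∀ s, 2 * finrank K (restrictTotalDegree (Fin 2) K s) = (s + 2) * (s + 1) := by
    intro s
    rw [finrank_restrictTotalDegree]
    simp only [Fintype.card_fin]
    rw [Nat.choose_two_right]
    have h7 : (s + 2) * (s + 2 - 1) = (s + 2) * (s + 1) := rfl
    rw [h7]
    have h8 : 2 ∣ (s + 2) * (s + 1) := by
      have := Nat.even_mul_succ_self (s + 1)
      rw [mul_comm]
      exact this.two_dvd
    omega
  rw [finrank_prod] at h3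
  rw [h1] at h2
  refine arith f.totalDegree g.totalDegree S.card _ _ _ _ _ _ _ (N _) ?_ ?_ ?_ h2 h3 h5 h6
  · have e2 : f.totalDegree + g.totalDegree + S.card - f.totalDegree
      = g.totalDegree + S.card := by omega
    rw [N, e2]
  · have e2 : f.totalDegree + g.totalDegree + S.card - g.totalDegree
      = f.totalDegree + S.card := by omega
    rw [N, e2]
  · have e2 : f.totalDegree + g.totalDegree + S.card - f.totalDegree - g.totalDegree
      = S.card := by omega
    rw [N, e2]

end plane

end Pool.Agent.H34.NA
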