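import Mathlib

set_option autoImplicit false

/-! The number of monomials of bounded degree.  Used for MP_4f0605_nt. -/

namespace Pool.Agent.H34.NA

open MvPolynomial

/-- Vectors with bounded sum are vectors with one more coordinate and prescribed sum. -/
noncomputable def boundedSumEquiv (σ : Type*) [Fintype σ] (t : ℕ) :
    {d : σ →₀ ℕ | (d.sum fun _ e => e) ≤ t} ≃ {P : Option σ → ℕ // ∑ i, P i = t} where
  toFun d := ⟨fun o => o.elim (t - d.1.sum fun _ e => e) d.1, by
    have h := d.2
    simp only [Set.mem_ofPred_eq] at h
    rw [Fintype.sum_option]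
    simp only [Option.elim_none, Option.elim_some]
    rw [Finsupp.sum_fintype _ _ (fun _ => rfl)] at h ⊢
    omega⟩
  invFun P := ⟨Finsupp.equivFunOnFinite.symm (fun i => P.1 (some i)), by
    have h := P.2
    rw [Fintype.sum_option] at h
    simp only [Set.mem_ofPred_eq]
    rw [Finsupp.sum_fintype _ _ (fun _ => rfl)]
    simp only [Finsupp.equivFunOnFinite_symm_apply_apply]
    omega⟩
  left_inv d := by
    ext i
    simp
  right_inv P := by
    ext o
    have h := P.2
    rw [Fintype.sum_option] at h
    cases o with
    | none =>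
      simp only [Option.elim_none]
      rw [Finsupp.sum_fintype _ _ (fun _ => rfl)]
      simp only [Finsupp.equivFunOnFinite_symm_apply_apply]
      omega
    | some i => simp

theorem natCard_boundedSum (σ : Type*) [Fintype σ] (t : ℕ) :
    Nat.card {d : σ →₀ ℕ | (d.sum fun _ e => e) ≤ t}
      = (t + Fintype.card σ).choose (Fintype.card σ) := by
  classical
  rw [Nat.card_congr (boundedSumEquiv σ t),
    Nat.card_congr (Sym.equivNatSumOfFintype (Option σ) t).symm, Sym.natCard_sym_eq_choose]
  simp only [Nat.card_eq_fintype_card, Fintype.card_option]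
  have h : Fintype.card σ + 1 + t - 1 = t + Fintype.card σ := by omega
  rw [h, Nat.choose_symm_add]

theorem finrank_restrictTotalDegree (K σ : Type*) [Field K] [Fintype σ] (t : ℕ) :
    Module.finrank K (restrictTotalDegree σ K t)
      = (t + Fintype.card σ).choose (Fintype.card σ) := by
  rw [← natCard_boundedSum σ t]
  exact Module.finrank_eq_nat_card_basis (basisRestrictSupport K _)

theorem restrictTotalDegree_mono (K σ : Type*) [CommSemiring K] {s t : ℕ} (h : s ≤ t) :
    restrictTotalDegree σ K s ≤ restrictTotalDegree σ K t := by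
  intro p hp
  rw [mem_restrictTotalDegree] at hp ⊢
  exact hp.trans h

/-- Evaluation of polynomials of degree `≤ t` at `≤ t + 1` distinct points is onto: there is a
polynomial of degree `≤ t` which is one at a given point and zero at the others. -/
theorem exists_separating {K σ : Type*} [Field K] (S : Finset (σ → K)) (p : σ → K)
    (hp : p ∈ S) : ∃ F : MvPolynomial σ K, F.totalDegree ≤ S.card - 1 ∧ eval p F = 1 ∧
      ∀ q ∈ S, q ≠ p → eval q F = 0 := by
  classical
  have hch : ∀ q : σ → K, q ≠ p → ∃ i, q i ≠ p i := fun q hq => Function.ne_iff.1 hq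
  let ix : (σ → K) → Option σ := fun q => if h : q ≠ p then some (hch q h).choose else none
  let L : (σ → K) → MvPolynomial σ K := fun q =>
    if h : q ≠ p then C ((p (hch q h).choose - q (hch q h).choose)⁻¹)
      * (X (hch q h).choose - C (q (hch q h).choose)) else 1
  have hL1 : ∀ q, eval p (L q) = 1 := by
    intro q
    by_cases h : q ≠ p
    · simp only [L, dif_pos h, map_mul, eval_C, map_sub, eval_X]
      exact inv_mul_cancel₀ (sub_ne_zero.2 (Ne.symm (hch q h).choose_spec))
    · simp only [L, dif_neg h, map_one]
  have hL2 : ∀ q, q ≠ p → eval q (L q) = 0 := by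
    intro q h
    simp only [L, dif_pos h, map_mul, eval_C, map_sub, eval_X, sub_self, mul_zero]
  have hL3 : ∀ q, (L q).totalDegree ≤ 1 := by
    intro q
    by_cases h : q ≠ p
    · simp only [L, dif_pos h]
      refine (totalDegree_mul _ _).trans ?_
      rw [totalDegree_C, zero_add]
      refine (totalDegree_sub_C_le _ _).trans ?_
      rw [totalDegree_X]
    · simp only [L, dif_neg h, totalDegree_one]
      omega
  refine ⟨∏ q ∈ S.erase p, L q, ?_, ?_, ?_⟩
  · refine (totalDegree_finsetProd _ _).trans ?_
    calc ∑ q ∈ S.erase p, (L q).totalDegree ≤ ∑ _q ∈ S.erase p, 1 :=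
          Finset.sum_le_sum fun q _ => hL3 q
      _ = S.card - 1 := by simp [Finset.card_erase_of_mem hp]
  · rw [map_prod]
    exact Finset.prod_eq_one fun q _ => hL1 q
  · intro q hq hqp
    rw [map_prod]
    exact Finset.prod_eq_zero (Finset.mem_erase.2 ⟨hqp, hq⟩) (hL2 q hqp)

/-- The evaluation map from polynomials of degree `≤ t` to functions on a finite set. -/
noncomputable def evalOn {K σ : Type*} [Field K] (S : Finset (σ → K)) (t : ℕ) :
    restrictTotalDegree σ K t →ₗ[K] (S → K) where
  toFun F := fun p => eval p.1 F.1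
  map_add' F G := by ext p; simp
  map_smul' c F := by ext p; simp [smul_eval]

theorem evalOn_surjective {K σ : Type*} [Field K] (S : Finset (σ → K)) (t : ℕ)
    (ht : S.card ≤ t + 1) : Function.Surjective (evalOn S t) := by
  classical
  intro v
  choose F hF1 hF2 hF3 using fun p : S => exists_separating S p.1 p.2
  refine ⟨⟨∑ p, C (v p) * F p, ?_⟩, ?_⟩
  · rw [mem_restrictTotalDegree]
    refine totalDegree_finsetSum_le fun p _ => ?_
    refine (totalDegree_mul _ _).trans ?_
    rw [totalDegree_C, zero_add]
    exact (hF1 p).trans (by omega)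
  · funext q
    simp only [evalOn, LinearMap.coe_mk, AddHom.coe_mk, map_sum, map_mul, eval_C]
    rw [Finset.sum_eq_single q]
    · rw [hF2, mul_one]
    · intro p _ hpq
      rw [hF3 p q.1 q.2 (fun h => hpq (Subtype.ext h.symm)), mul_zero]
    · intro h; exact absurd (Finset.mem_univ q) h

end Pool.Agent.H34.NA
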