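import Pool.Agent.H34.NA.Hensel

set_option autoImplicit false

/-! Powers of the ideal of variables of a multivariate power series ring, and the formal
inverse / implicit function theorem.  Used for MP_4f0605_nt, 1.16. -/

namespace Pool.Agent.H34.NA

open MvPowerSeries

section order

variable {σ R : Type*} [CommRing R]

/-- The ideal of the power series ring generated by the variables. -/
noncomputable def xIdeal (σ R : Type*) [CommRing R] : Ideal (MvPowerSeries σ R) :=
  Ideal.span (Set.range (MvPowerSeries.X : σ → MvPowerSeries σ R))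

instance [Finite σ] : IsAdicComplete (xIdeal σ R) (MvPowerSeries σ R) := by
  unfold xIdeal; infer_instance

theorem coeff_eq_zero_of_mem_xIdeal_pow (n : ℕ) (f : MvPowerSeries σ R)
    (hf : f ∈ xIdeal σ R ^ n) (d : σ →₀ ℕ) (hd : d.degree < n) : coeff d f = 0 := by
  classical
  induction n generalizing f d with
  | zero => omega
  | succ n ih =>
    rw [pow_succ'] at hf
    revert d
    refine Submodule.mul_induction_on hf ?_ ?_
    · intro p hp q hq d hd
      -- `p` is in the ideal generated by the variables
      have h0 : coeff 0 p = 0 := by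
        have : xIdeal σ R ≤ RingHom.ker (constantCoeff (σ := σ) (R := R)) := by
          unfold xIdeal
          rw [Ideal.span_le]
          rintro _ ⟨i, rfl⟩
          simp
        simpa [RingHom.mem_ker] using this hp
      rw [coeff_mul]
      refine Finset.sum_eq_zero fun x hx => ?_
      rw [Finset.HasAntidiagonal.mem_antidiagonal] at hx
      by_cases hx0 : x.1 = 0
      · rw [hx0, h0, zero_mul]
      · have h1 : x.2.degree < n := by
          have h2 : x.1.degree + x.2.degree = d.degree := by
            rw [← hx, map_add]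
          have h3 : x.1.degree ≠ 0 := by
            rw [Ne, Finsupp.degree_eq_zero_iff]; exact hx0
          omega
        rw [ih q hq x.2 h1, mul_zero]
    · intro p q hp hq d hd
      rw [map_add, hp d hd, hq d hd, add_zero]

theorem mem_xIdeal_pow_iff [Finite σ] (n : ℕ) (f : MvPowerSeries σ R) :
    f ∈ xIdeal σ R ^ n ↔ ∀ d : σ →₀ ℕ, d.degree < n → coeff d f = 0 := by
  classical
  have := Fintype.ofFinite σ
  refine ⟨coeff_eq_zero_of_mem_xIdeal_pow n f, ?_⟩
  induction n generalizing f with
  | zero => intro _; simp
  | succ n ih =>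
    intro hf
    have hch : ∀ d : σ →₀ ℕ, ∃ i : Option σ, (d = 0 → i = none) ∧
        (d ≠ 0 → ∃ j, i = some j ∧ d j ≠ 0) := by
      intro d
      by_cases hd : d = 0
      · exact ⟨none, fun _ => rfl, fun h => absurd hd h⟩
      · obtain ⟨j, hj⟩ := Finsupp.ne_iff.1 hd
        exact ⟨some j, fun h => absurd h hd, fun _ => ⟨j, rfl, by simpa using hj⟩⟩
    choose ix hix0 hix1 using hch
    let g : σ → MvPowerSeries σ R := fun i e =>
      if ix (e + Finsupp.single i 1) = some i then coeff (e + Finsupp.single i 1) f else 0
    have hg : ∀ i, g i ∈ xIdeal σ R ^ n := by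
      intro i
      refine ih (g i) fun d hd => ?_
      have h1 : coeff d (g i) = if ix (d + Finsupp.single i 1) = some i
          then coeff (d + Finsupp.single i 1) f else 0 := rfl
      rw [h1]
      split_ifs
      · refine hf _ ?_
        rw [map_add]
        simpa using hd
      · rfl
    have hsum : f = ∑ i, X i * g i := by
      ext d
      rw [map_sum]
      have h1 : ∀ i, coeff d (X i * g i) = if ix d = some i then coeff d f else 0 := by
        intro i
        rw [X, coeff_monomial_mul]
        by_cases hdi : Finsupp.single i 1 ≤ d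
        · rw [if_pos hdi, one_mul]
          have h2 : coeff (d - Finsupp.single i 1) (g i)
            = if ix (d - Finsupp.single i 1 + Finsupp.single i 1) = some i
              then coeff (d - Finsupp.single i 1 + Finsupp.single i 1) f else 0 := rfl
          rw [h2, tsub_add_cancel_of_le hdi]
        · rw [if_neg hdi]
          split_ifs with h3
          · exfalso
            have hd0 : d ≠ 0 := by
              intro h4
              rw [hix0 d h4] at h3
              exact absurd h3 (by simp)
            obtain ⟨j, hj1, hj2⟩ := hix1 d hd0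
            rw [h3] at hj1
            have hij : i = j := by simpa using hj1
            subst hij
            apply hdi
            rw [Finsupp.single_le_iff]
            omega
          · rfl
      rw [Finset.sum_congr rfl fun i _ => h1 i]
      by_cases hd0 : d = 0
      · have h5 : coeff d f = 0 := hf d (by rw [hd0]; simp)
        rw [h5]
        simp
      · obtain ⟨j, hj1, -⟩ := hix1 d hd0
        rw [hj1]
        simp
    rw [hsum, pow_succ']
    exact Ideal.sum_mem _ fun i _ =>
      Ideal.mul_mem_mul (Ideal.subset_span ⟨i, rfl⟩) (hg i)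

theorem mem_xIdeal_iff [Finite σ] (f : MvPowerSeries σ R) :
    f ∈ xIdeal σ R ↔ constantCoeff f = 0 := by
  have := mem_xIdeal_pow_iff 1 f
  rw [pow_one] at this
  rw [this]
  constructor
  · intro h
    simpa using h 0 (by simp)
  · intro h d hd
    have : d = 0 := by
      rw [← Finsupp.degree_eq_zero_iff]; omega
    rw [this]
    simpa using h

end order

section inverse

variable {B : Type*} [CommRing B] {τ ρ : Type*} [Fintype τ] [DecidableEq τ] [Finite ρ]

/-- Formal inverse function theorem: existence and uniqueness.  `G` is a square system of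
polynomials whose Jacobian determinant at `P` is a unit, `c` a vector of power series with
constant coefficients `G(P)`. -/
theorem formal_inverse (G : τ → MvPolynomial τ B) (P : τ → B) (c : τ → MvPowerSeries ρ B)
    (hc : ∀ a, constantCoeff (c a) = MvPolynomial.eval P (G a))
    (hJ : IsUnit (jac G P).det) :
    ∃! Φ : τ → MvPowerSeries ρ B, (∀ i, constantCoeff (Φ i) = P i) ∧
      ∀ a, MvPolynomial.aeval Φ (G a) = c a := by
  classical
  set F : τ → MvPolynomial τ (MvPowerSeries ρ B) := fun a =>
    MvPolynomial.map (C (σ := ρ) (R := B)) (G a) - MvPolynomial.C (c a) with hF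
  set Q : τ → MvPowerSeries ρ B := fun i => C (P i) with hQ
  have hev : ∀ (g : MvPolynomial τ B),
      MvPolynomial.eval Q (MvPolynomial.map (C (σ := ρ) (R := B)) g)
        = C (MvPolynomial.eval P g) := by
    intro g
    rw [MvPolynomial.eval_map, hQ]
    have := MvPolynomial.eval₂_comp_left (C (σ := ρ) (R := B)) (RingHom.id B) P g
    rw [RingHom.comp_id] at this
    rw [← MvPolynomial.eval₂_id, this]
    rfl
  have hjac : jac F Q = (C (σ := ρ) (R := B)).mapMatrix (jac G P) := by
    ext a b : 2
    rw [jac_apply, RingHom.mapMatrix_apply, Matrix.map_apply, jac_apply, ← hev]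
    simp only [hF, map_sub, MvPolynomial.pderiv_C, sub_zero, MvPolynomial.pderiv_map]
  have hJ' : IsUnit (jac F Q).det := by
    rw [hjac, ← RingHom.map_det]
    exact hJ.map _
  have hP : ∀ a, MvPolynomial.eval Q (F a) ∈ xIdeal ρ B := by
    intro a
    rw [mem_xIdeal_iff]
    simp only [hF, map_sub, MvPolynomial.eval_C, hev, hc]
    simp
  have hiff : ∀ Φ : τ → MvPowerSeries ρ B,
      ((∀ i, constantCoeff (Φ i) = P i) ∧ ∀ a, MvPolynomial.aeval Φ (G a) = c a) ↔
      ((∀ i, Φ i - Q i ∈ xIdeal ρ B) ∧ ∀ a, MvPolynomial.eval Φ (F a) = 0) := by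
    intro Φ
    have h1 : ∀ i, constantCoeff (Φ i) = P i ↔ Φ i - Q i ∈ xIdeal ρ B := by
      intro i
      rw [mem_xIdeal_iff, map_sub, sub_eq_zero, hQ]
      simp
    have h2 : ∀ a, MvPolynomial.aeval Φ (G a) = c a ↔ MvPolynomial.eval Φ (F a) = 0 := by
      intro a
      have h3 : MvPolynomial.eval Φ (F a) = MvPolynomial.aeval Φ (G a) - c a := by
        simp only [hF, map_sub, MvPolynomial.eval_C, MvPolynomial.eval_map]
        rfl
      rw [h3, sub_eq_zero]
    exact and_congr (forall_congr' h1) (forall_congr' h2)
  obtain ⟨Z, hZ, huniq⟩ := hensel (xIdeal ρ B) F Q hP hJ'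
  exact ⟨Z, (hiff Z).2 hZ, fun Y hY => huniq Y ((hiff Y).1 hY)⟩

/-- 1.16, formal implicit functions: equations `f` (indexed by `κ`) and forms `l` (indexed by
`ρ`), together a square system after an identification `e`, whose Jacobian determinant at the
point `P` is a unit.  There are unique power series `Φ` with constant coefficient `P`,
`f(Φ) = 0` and `l_j(Φ) = l_j(P) + T_j`. -/
theorem formal_implicit {κ : Type*} (f : κ → MvPolynomial τ B) (l : ρ → MvPolynomial τ B)
    (e : τ ≃ κ ⊕ ρ) (P : τ → B) (hf : ∀ a, MvPolynomial.eval P (f a) = 0)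
    (hJ : IsUnit (jac (fun i => Sum.elim f l (e i)) P).det) :
    ∃! Φ : τ → MvPowerSeries ρ B, (∀ i, constantCoeff (Φ i) = P i) ∧
      (∀ a, MvPolynomial.aeval Φ (f a) = 0) ∧
      ∀ j, MvPolynomial.aeval Φ (l j) = C (MvPolynomial.eval P (l j)) + X j := by
  have h := formal_inverse (ρ := ρ) (fun i => Sum.elim f l (e i)) P
    (fun i => Sum.elim (fun _ => 0) (fun j => C (MvPolynomial.eval P (l j)) + X j) (e i)) (by
      intro a
      cases he : e a with
      | inl k => simp [hf k]
      | inr j => simp) hJ
  have hiff : ∀ Φ : τ → MvPowerSeries ρ B,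
      (∀ a, MvPolynomial.aeval Φ (Sum.elim f l (e a)) = Sum.elim (fun _ => 0)
        (fun j => C (MvPolynomial.eval P (l j)) + X j) (e a)) ↔
      ((∀ a, MvPolynomial.aeval Φ (f a) = 0) ∧
      ∀ j, MvPolynomial.aeval Φ (l j) = C (MvPolynomial.eval P (l j)) + X j) := by
    intro Φ
    constructor
    · intro h1
      refine ⟨fun k => ?_, fun j => ?_⟩
      · simpa using h1 (e.symm (Sum.inl k))
      · simpa using h1 (e.symm (Sum.inr j))
    · rintro ⟨h1, h2⟩ a
      cases he : e a with
      | inl k => simpa [he] using h1 k
      | inr j => simpa [he] using h2 j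
  obtain ⟨Z, ⟨hZ1, hZ2⟩, hu⟩ := h
  refine ⟨Z, ⟨hZ1, (hiff Z).1 hZ2⟩, fun Y hY => hu Y ⟨hY.1, (hiff Y).2 hY.2⟩⟩

end inverse

end Pool.Agent.H34.NA
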