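import Mathlib

set_option autoImplicit false

/-! Multivariate Hensel lemma over an adically complete ring, with corollaries
(formal implicit functions, nilpotent uniqueness).  Used for MP_4f0605_nt, 1.16 and 1.17. -/

namespace Pool.Agent.H34.NA

open MvPolynomial

variable {S : Type*} [CommRing S] {τ : Type*}

theorem eval_sub_mem (K : Ideal S) (Z Z' : τ → S) (h : ∀ i, Z' i - Z i ∈ K)
    (g : MvPolynomial τ S) : eval Z' g - eval Z g ∈ K := by
  induction g using MvPolynomial.induction_on with
  | C a => simp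
  | add p q hp hq =>
    have := K.add_mem hp hq
    simpa [map_add, add_sub_add_comm] using this
  | mul_X p i hp =>
    have h1 : eval Z' (p * X i) - eval Z (p * X i)
        = (eval Z' p - eval Z p) * Z' i + eval Z p * (Z' i - Z i) := by
      simp only [map_mul, eval_X]; ring
    rw [h1]
    exact K.add_mem (K.mul_mem_right _ hp) (K.mul_mem_left _ (h i))

/-- Taylor expansion of order one. -/
theorem taylor_one [Fintype τ] (K : Ideal S) (Z Z' : τ → S) (h : ∀ i, Z' i - Z i ∈ K)
    (g : MvPolynomial τ S) :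
    eval Z' g - eval Z g - ∑ b, (Z' b - Z b) * eval Z (pderiv b g) ∈ K ^ 2 := by
  classical
  induction g using MvPolynomial.induction_on with
  | C a => simp
  | add p q hp hq =>
    have := (K ^ 2).add_mem hp hq
    convert this using 1
    simp only [map_add, mul_add, Finset.sum_add_distrib]
    ring
  | mul_X p i hp =>
    have h1 : eval Z' (p * X i) - eval Z (p * X i)
          - ∑ b, (Z' b - Z b) * eval Z (pderiv b (p * X i))
        = (eval Z' p - eval Z p - ∑ b, (Z' b - Z b) * eval Z (pderiv b p)) * Z i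
          + (eval Z' p - eval Z p) * (Z' i - Z i) := by
      have h2 : ∑ b, (Z' b - Z b) * eval Z (pderiv b (p * X i))
          = (∑ b, (Z' b - Z b) * eval Z (pderiv b p)) * Z i + (Z' i - Z i) * eval Z p := by
        rw [Finset.sum_mul]
        have h3 : ∀ b, (Z' b - Z b) * eval Z (pderiv b (p * X i))
            = (Z' b - Z b) * eval Z (pderiv b p) * Z i
              + (if b = i then (Z' i - Z i) * eval Z p else 0) := by
          intro b
          rw [Derivation.leibniz]
          by_cases hb : b = i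
          · subst hb
            simp only [pderiv_X_self, smul_eq_mul, map_add, map_mul, eval_X, if_true, map_one]
            ring
          · rw [pderiv_X_of_ne (Ne.symm hb)]
            simp only [smul_eq_mul, map_add, map_mul, eval_X, if_neg hb, map_zero]
            ring
        rw [Finset.sum_congr rfl (fun b _ => h3 b), Finset.sum_add_distrib]
        simp
      rw [h2]
      simp only [map_mul, eval_X]
      ring
    rw [h1]
    refine (K ^ 2).add_mem ((K ^ 2).mul_mem_right _ hp) ?_
    rw [pow_two]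
    exact Ideal.mul_mem_mul (eval_sub_mem K Z Z' h p) (h i)

/-- The Jacobian matrix of a square system at a point. -/
noncomputable def jac (F : τ → MvPolynomial τ S) (P : τ → S) : Matrix τ τ S :=
  Matrix.of fun a b => eval P (pderiv b (F a))

theorem jac_apply (F : τ → MvPolynomial τ S) (P : τ → S) (a b : τ) :
    jac F P a b = eval P (pderiv b (F a)) := rfl

/-- One step: two points which agree modulo `J` and modulo `J ^ m`, whose values agree
modulo `J ^ (m + 1)`, agree modulo `J ^ (m + 1)`. -/
theorem step_unique [Fintype τ] [DecidableEq τ] (J : Ideal S) (F : τ → MvPolynomial τ S)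
    (P Z Z' : τ → S) (hP : ∀ i, Z i - P i ∈ J)
    (hJ : IsUnit (jac F P).det) (m : ℕ) (hm : 1 ≤ m) (h : ∀ i, Z' i - Z i ∈ J ^ m)
    (hv : ∀ a, eval Z' (F a) - eval Z (F a) ∈ J ^ (m + 1)) :
    ∀ i, Z' i - Z i ∈ J ^ (m + 1) := by
  have hle : (J ^ m) ^ 2 ≤ J ^ (m + 1) := by
    rw [← pow_mul]
    exact Ideal.pow_le_pow_right (by omega)
  -- the linear term at `P`
  have h1 : ∀ a, ((jac F P).mulVec (fun b => Z' b - Z b)) a ∈ J ^ (m + 1) := by
    intro a
    have e1 := hle (taylor_one (J ^ m) Z Z' h (F a))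
    have e2 : ∑ b, (Z' b - Z b) * eval Z (pderiv b (F a)) ∈ J ^ (m + 1) := by
      have := (J ^ (m + 1)).sub_mem (hv a) e1
      simpa using this
    have e3 : ∑ b, (Z' b - Z b) * (eval Z (pderiv b (F a)) - eval P (pderiv b (F a)))
        ∈ J ^ (m + 1) := by
      refine Ideal.sum_mem _ fun b _ => ?_
      rw [pow_succ]
      exact Ideal.mul_mem_mul (h b) (eval_sub_mem J P Z hP _)
    have e4 := (J ^ (m + 1)).sub_mem e2 e3
    convert e4 using 1
    simp only [Matrix.mulVec, dotProduct, jac_apply]
    rw [← Finset.sum_sub_distrib]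
    refine Finset.sum_congr rfl fun b _ => ?_
    ring
  intro i
  have h2 : (fun b => Z' b - Z b)
      = ((jac F P)⁻¹).mulVec ((jac F P).mulVec (fun b => Z' b - Z b)) := by
    rw [Matrix.mulVec_mulVec, Matrix.nonsing_inv_mul _ hJ, Matrix.one_mulVec]
  have h3 := congrFun h2 i
  rw [h3]
  simp only [Matrix.mulVec, dotProduct] at h1 ⊢
  refine Ideal.sum_mem _ fun a _ => ?_
  exact Ideal.mul_mem_left _ _ (h1 a)

/-- Two points which agree modulo `J` and whose values agree modulo `J ^ N` agree modulo
`J ^ N`. -/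
theorem approx_unique [Fintype τ] [DecidableEq τ] (J : Ideal S) (F : τ → MvPolynomial τ S)
    (P Z Z' : τ → S) (hP : ∀ i, Z i - P i ∈ J)
    (hJ : IsUnit (jac F P).det) (h : ∀ i, Z' i - Z i ∈ J) (N : ℕ) (hN : 1 ≤ N)
    (hv : ∀ a, eval Z' (F a) - eval Z (F a) ∈ J ^ N) :
    ∀ i, Z' i - Z i ∈ J ^ N := by
  induction N, hN using Nat.le_induction with
  | base => simpa using h
  | succ m hm ih =>
    refine step_unique J F P Z Z' hP hJ m hm (ih fun a => ?_) hv
    exact Ideal.pow_le_pow_right (Nat.le_succ m) (hv a)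

theorem hensel_unique [Fintype τ] [DecidableEq τ] (J : Ideal S) [IsHausdorff J S]
    (F : τ → MvPolynomial τ S) (P Z Z' : τ → S) (hP : ∀ i, Z i - P i ∈ J)
    (hJ : IsUnit (jac F P).det) (h : ∀ i, Z' i - Z i ∈ J)
    (hv : ∀ a, eval Z' (F a) = eval Z (F a)) : Z' = Z := by
  funext i
  rw [← sub_eq_zero]
  refine IsHausdorff.haus (I := J) inferInstance _ fun n => ?_
  rw [SModEq.zero]
  have h1 : Z' i - Z i ∈ J ^ (n + 1) :=
    approx_unique J F P Z Z' hP hJ h (n + 1) (by omega) (fun a => by simp [hv a]) i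
  have h2 : Z' i - Z i ∈ J ^ n := Ideal.pow_le_pow_right (Nat.le_succ n) h1
  simpa using h2

/-- The Newton iteration. -/
noncomputable def newton [Fintype τ] [DecidableEq τ] (F : τ → MvPolynomial τ S) (P : τ → S) :
    ℕ → τ → S
  | 0 => P
  | n + 1 => fun i => newton F P n i
      - ((jac F P)⁻¹).mulVec (fun a => eval (newton F P n) (F a)) i

theorem newton_spec [Fintype τ] [DecidableEq τ] (J : Ideal S)
    (F : τ → MvPolynomial τ S) (P : τ → S) (hP : ∀ a, eval P (F a) ∈ J)
    (hJ : IsUnit (jac F P).det) (n : ℕ) :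
    (∀ i, newton F P n i - P i ∈ J) ∧ (∀ a, eval (newton F P n) (F a) ∈ J ^ (n + 1)) ∧
      (∀ i, newton F P (n + 1) i - newton F P n i ∈ J ^ (n + 1)) := by
  induction n with
  | zero =>
    refine ⟨fun i => by simp [newton], fun a => by simpa [newton] using hP a, fun i => ?_⟩
    have : newton F P (0 + 1) i - newton F P 0 i
        = - ((jac F P)⁻¹).mulVec (fun a => eval P (F a)) i := by
      simp [newton]
    rw [this]
    refine neg_mem ?_
    simp only [Matrix.mulVec, dotProduct, zero_add, pow_one]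
    exact Ideal.sum_mem _ fun a _ => Ideal.mul_mem_left _ _ (hP a)
  | succ n ih =>
    obtain ⟨h1, h2, h3⟩ := ih
    have hle1 : J ^ (n + 1) ≤ J := Ideal.pow_le_self (by omega)
    have h4 : ∀ i, newton F P (n + 1) i - P i ∈ J := fun i => by
      have := J.add_mem (hle1 (h3 i)) (h1 i)
      simpa using this
    have hle : (J ^ (n + 1)) ^ 2 ≤ J ^ (n + 1 + 1) := by
      rw [← pow_mul]
      exact Ideal.pow_le_pow_right (by omega)
    have h5 : ∀ a, eval (newton F P (n + 1)) (F a) ∈ J ^ (n + 1 + 1) := by
      intro a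
      set Z := newton F P n with hZ
      set Z' := newton F P (n + 1) with hZ'
      have e1 := hle (taylor_one (J ^ (n + 1)) Z Z' h3 (F a))
      have e3 : ∑ b, (Z' b - Z b) * (eval Z (pderiv b (F a)) - eval P (pderiv b (F a)))
          ∈ J ^ (n + 1 + 1) := by
        refine Ideal.sum_mem _ fun b _ => ?_
        rw [pow_succ]
        exact Ideal.mul_mem_mul (h3 b) (eval_sub_mem J P Z h1 _)
      have e4 : ∑ b, (Z' b - Z b) * eval P (pderiv b (F a)) = - eval Z (F a) := by
        have e5 : (jac F P).mulVec (fun b => Z' b - Z b) = fun a => - eval Z (F a) := by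
          have e6 : (fun b => Z' b - Z b)
              = - ((jac F P)⁻¹).mulVec (fun a => eval Z (F a)) := by
            funext b
            simp only [hZ', newton, Pi.neg_apply, ← hZ]
            ring
          rw [e6, Matrix.mulVec_neg, Matrix.mulVec_mulVec, Matrix.mul_nonsing_inv _ hJ,
            Matrix.one_mulVec]
          rfl
        have e7 := congrFun e5 a
        rw [← e7]
        simp only [Matrix.mulVec, dotProduct, jac_apply]
        exact Finset.sum_congr rfl fun b _ => mul_comm _ _
      have e8 : eval Z' (F a) = (eval Z' (F a) - eval Z (F a)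
            - ∑ b, (Z' b - Z b) * eval Z (pderiv b (F a)))
          + ∑ b, (Z' b - Z b) * (eval Z (pderiv b (F a)) - eval P (pderiv b (F a))) := by
        have e9 : ∑ b, (Z' b - Z b) * (eval Z (pderiv b (F a)) - eval P (pderiv b (F a)))
            = ∑ b, (Z' b - Z b) * eval Z (pderiv b (F a))
              - ∑ b, (Z' b - Z b) * eval P (pderiv b (F a)) := by
          rw [← Finset.sum_sub_distrib]
          exact Finset.sum_congr rfl fun b _ => by ring
        rw [e9, e4]
        ring
      rw [e8]
      exact (J ^ (n + 1 + 1)).add_mem e1 e3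
    refine ⟨h4, h5, fun i => ?_⟩
    have : newton F P (n + 1 + 1) i - newton F P (n + 1) i
        = - ((jac F P)⁻¹).mulVec (fun a => eval (newton F P (n + 1)) (F a)) i := by
      rw [newton]
      ring
    rw [this]
    refine neg_mem ?_
    simp only [Matrix.mulVec, dotProduct]
    exact Ideal.sum_mem _ fun a _ => Ideal.mul_mem_left _ _ (h5 a)

theorem newton_cauchy [Fintype τ] [DecidableEq τ] (J : Ideal S)
    (F : τ → MvPolynomial τ S) (P : τ → S) (hP : ∀ a, eval P (F a) ∈ J)
    (hJ : IsUnit (jac F P).det) {m n : ℕ} (hmn : m ≤ n) (i : τ) :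
    newton F P m i ≡ newton F P n i [SMOD (J ^ m • ⊤ : Submodule S S)] := by
  induction n, hmn using Nat.le_induction with
  | base => exact SModEq.rfl
  | succ n hn ih =>
    refine ih.trans ?_
    symm
    rw [SModEq.sub_mem]
    have h1 := (newton_spec J F P hP hJ n).2.2 i
    have h2 : newton F P (n + 1) i - newton F P n i ∈ J ^ m :=
      Ideal.pow_le_pow_right (by omega) h1
    simpa using h2

/-- Multivariate Hensel lemma: existence. -/
theorem hensel_exists [Fintype τ] [DecidableEq τ] (J : Ideal S) [IsAdicComplete J S]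
    (F : τ → MvPolynomial τ S) (P : τ → S) (hP : ∀ a, eval P (F a) ∈ J)
    (hJ : IsUnit (jac F P).det) :
    ∃ Z : τ → S, (∀ i, Z i - P i ∈ J) ∧ ∀ a, eval Z (F a) = 0 := by
  have h1 : ∀ i, ∃ L : S, ∀ n, newton F P n i ≡ L [SMOD (J ^ n • ⊤ : Submodule S S)] := by
    intro i
    exact IsPrecomplete.prec (I := J) inferInstance
      (fun {m n} hmn => newton_cauchy J F P hP hJ hmn i)
  choose Z hZ using h1
  have h2 : ∀ n i, newton F P n i - Z i ∈ J ^ n := by
    intro n i
    have := hZ i n
    rw [SModEq.sub_mem] at this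
    simpa using this
  refine ⟨Z, fun i => ?_, fun a => ?_⟩
  · have e1 := h2 1 i
    rw [pow_one] at e1
    have e2 := (newton_spec J F P hP hJ 1).1 i
    have := J.sub_mem e2 e1
    simpa using this
  · refine IsHausdorff.haus (I := J) inferInstance _ fun n => ?_
    rw [SModEq.zero]
    have e1 : eval (newton F P n) (F a) - eval Z (F a) ∈ J ^ n :=
      eval_sub_mem (J ^ n) Z (newton F P n) (h2 n) (F a)
    have e2 : eval (newton F P n) (F a) ∈ J ^ n :=
      Ideal.pow_le_pow_right (Nat.le_succ n) ((newton_spec J F P hP hJ n).2.1 a)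
    have e3 := (J ^ n).sub_mem e2 e1
    simpa using e3

/-- Multivariate Hensel lemma: existence and uniqueness. -/
theorem hensel [Fintype τ] [DecidableEq τ] (J : Ideal S) [IsAdicComplete J S]
    (F : τ → MvPolynomial τ S) (P : τ → S) (hP : ∀ a, eval P (F a) ∈ J)
    (hJ : IsUnit (jac F P).det) :
    ∃! Z : τ → S, (∀ i, Z i - P i ∈ J) ∧ ∀ a, eval Z (F a) = 0 := by
  obtain ⟨Z, h1, h2⟩ := hensel_exists J F P hP hJ
  refine ⟨Z, ⟨h1, h2⟩, fun Z' ⟨h3, h4⟩ => ?_⟩
  refine hensel_unique J F P Z Z' h1 hJ (fun i => ?_) (fun a => by rw [h2 a, h4 a])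
  have := J.sub_mem (h3 i) (h1 i)
  simpa using this

/-- 1.17: uniqueness modulo a nilpotent ideal. -/
theorem nilpotent_unique [Fintype τ] [DecidableEq τ] (J : Ideal S) (hnil : IsNilpotent J)
    (F : τ → MvPolynomial τ S) (Z Z' : τ → S)
    (hJ : IsUnit (jac F Z).det) (h : ∀ i, Z' i - Z i ∈ J)
    (hv : ∀ a, eval Z' (F a) = eval Z (F a)) : Z' = Z := by
  obtain ⟨N, hN⟩ := hnil
  have h1 := approx_unique J F Z Z Z' (fun i => by simp) hJ h (N + 1) (by omega)
    (fun a => by simp [hv a])
  funext i
  have h2 := Ideal.pow_le_pow_right (Nat.le_succ N) (h1 i)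
  rw [hN] at h2
  simpa [sub_eq_zero] using h2

end Pool.Agent.H34.NA
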