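import Mathlib

set_option autoImplicit false

/-! Siegel's lemma on coordinate subspaces.  Used for MP_4f0605_nt, 3.1. -/

namespace Pool.Agent.H34.NA

open Module Submodule

attribute [local instance] Matrix.seminormedAddCommGroup

/-- Every subspace of `β → ℚ` has a complementary coordinate subspace. -/
theorem exists_coord_complement {K β : Type*} [Field K] [Fintype β] [DecidableEq β]
    (T : Submodule K (β → K)) :
    ∃ U : Finset β, U.card + finrank K T = Fintype.card β ∧
      ∀ v ∈ T, (∀ j, j ∉ U → v j = 0) → v = 0 := by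
  classical
  let f : β → (β → K) ⧸ T := fun j => T.mkQ (Pi.single j 1)
  have hspan : span K (Set.range f) = ⊤ := by
    have h1 : Set.range f = T.mkQ '' Set.range (fun j => (Pi.single j (1 : K) : β → K)) := by
      rw [← Set.range_comp]; rfl
    rw [h1, ← Submodule.map_span]
    have h2 : span K (Set.range (fun j => (Pi.single j (1 : K) : β → K))) = ⊤ := by
      have := (Pi.basisFun K β).span_eq
      convert this using 2
      ext x
      simp
    rw [h2, Submodule.map_top, Submodule.range_mkQ]
  obtain ⟨κ, a, hinj, hsp, hli⟩ := exists_linearIndependent' K f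
  have : Finite κ := Finite.of_injective a hinj
  have : Fintype κ := Fintype.ofFinite κ
  have hcard : Fintype.card κ = finrank K ((β → K) ⧸ T) := by
    rw [hspan] at hsp
    have b := Basis.mk hli (by rw [hsp])
    rw [finrank_eq_card_basis b]
  refine ⟨Finset.univ.image a, ?_, ?_⟩
  · rw [Finset.card_image_of_injective _ hinj, Finset.card_univ, hcard,
      Submodule.finrank_quotient_add_finrank]
    simp
  · intro v hv hU
    have h1 : ∑ k, v (a k) • f (a k) = 0 := by
      have h2 : v = ∑ k, v (a k) • (Pi.single (a k) (1 : K) : β → K) := by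
        have h3 : v = ∑ j, v j • (Pi.single j (1 : K) : β → K) := by
          have := pi_eq_sum_univ' v
          exact this
        conv_lhs => rw [h3]
        rw [← Finset.sum_subset (Finset.subset_univ (Finset.univ.image a))]
        · rw [Finset.sum_image (fun x _ y _ h => hinj h)]
        · intro j _ hj
          rw [hU j hj, zero_smul]
      have h4 : T.mkQ v = ∑ k, v (a k) • f (a k) := by
        conv_lhs => rw [h2]
        rw [map_sum]
        exact Finset.sum_congr rfl fun k _ => by rw [map_smul]
      rw [← h4]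
      simpa using hv
    have h5 := Fintype.linearIndependent_iff.1 hli (fun k => v (a k)) h1
    funext j
    by_cases hj : j ∈ Finset.univ.image a
    · obtain ⟨k, -, rfl⟩ := Finset.mem_image.1 hj
      exact h5 k
    · exact hU j hj

/-- The span of the small integral solutions of `M v = 0`. -/
noncomputable def smallKer {α β : Type*} [Fintype β] (M : Matrix α β ℤ) (R : ℝ) :
    Submodule ℚ (β → ℚ) :=
  span ℚ {v : β → ℚ | ∃ w : β → ℤ, (∀ j, v j = (w j : ℚ)) ∧ M.mulVec w = 0 ∧
    ∀ j, |(w j : ℝ)| ≤ R}

/-- 3.1: Siegel's lemma on coordinate subspaces. -/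
theorem siegel_coord {α β : Type*} [Fintype α] [Fintype β] [DecidableEq β]
    (M : Matrix α β ℤ) (hrow : LinearIndependent ℚ (fun i j => (M i j : ℚ)))
    (H : ℝ) (hH : 1 ≤ H) (hM : ∀ i j, |(M i j : ℝ)| ≤ H) (a : ℕ) (ha : 1 ≤ a)
    (hα : 1 ≤ Fintype.card α) :
    a * finrank ℚ (LinearMap.ker (M.map (Int.cast : ℤ → ℚ)).mulVecLin) <
      a * finrank ℚ (smallKer M ((2 * Fintype.card α * H) ^ a)) + Fintype.card α := by
  classical
  set h := Fintype.card α with hh
  set T := smallKer M ((2 * h * H) ^ a) with hT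
  have hW : finrank ℚ (LinearMap.ker (M.map (Int.cast : ℤ → ℚ)).mulVecLin) + h
      = Fintype.card β := by
    have h1 := LinearMap.finrank_range_add_finrank_ker (M.map (Int.cast : ℤ → ℚ)).mulVecLin
    have h2 : finrank ℚ (LinearMap.range (M.map (Int.cast : ℤ → ℚ)).mulVecLin) = h := by
      have h3 : (M.map (Int.cast : ℤ → ℚ)).rank = h := by
        refine LinearIndependent.rank_matrix ?_
        exact hrow
      rw [← h3]; rfl
    rw [h2] at h1
    simp only [finrank_fintype_fun_eq_card] at h1
    omega
  obtain ⟨U, hU1, hU2⟩ := exists_coord_complement T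
  by_contra hcon
  push Not at hcon
  set W := finrank ℚ (LinearMap.ker (M.map (Int.cast : ℤ → ℚ)).mulVecLin) with hWdef
  set t := finrank ℚ T with ht
  -- the number `c = ⌈h / a⌉`
  set c := (h + a - 1) / a with hc
  have hc1 : h ≤ a * c := by
    have := Nat.div_add_mod (h + a - 1) a
    have h2 := Nat.mod_lt (h + a - 1) (show 0 < a by omega)
    rw [← hc] at this
    omega
  have hc2 : a * (c - 1) < h := by
    have := Nat.div_mul_le_self (h + a - 1) a
    rw [← hc] at this
    have hc0 : 1 ≤ c := by
      rw [hc, Nat.one_le_div_iff (by omega)]; omega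
    have h3 : a * (c - 1) = c * a - a := by
      rw [Nat.mul_sub, mul_one, mul_comm]
    rw [h3]
    have : a ≤ c * a := Nat.le_mul_of_pos_left a (by omega)
    omega
  have hc0 : 1 ≤ c := by
    rw [hc, Nat.one_le_div_iff (by omega)]; omega
  have hch : c ≤ h := by
    by_contra hlt
    push Not at hlt
    have : h ≤ a * (c - 1) := by
      calc h ≤ c - 1 := by omega
        _ ≤ a * (c - 1) := Nat.le_mul_of_pos_left _ (by omega)
    omega
  have hm : h + c ≤ U.card := by
    -- `U.card = W + h - t`
    have h1 : U.card + t = W + h := by omega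
    have h2 : t < W := by
      by_contra h3
      push Not at h3
      have := Nat.mul_le_mul_left a h3
      omega
    have h3 : h ≤ a * (W - t) := by
      rw [Nat.mul_sub]; omega
    have h4 : c ≤ W - t := by
      by_contra h5
      push Not at h5
      have h6 : a * (W - t) ≤ a * (c - 1) := Nat.mul_le_mul_left a (by omega)
      omega
    omega
  obtain ⟨U', hU'U, hU'c⟩ := Finset.exists_subset_card_eq hm
  -- Siegel for the submatrix
  let A : Matrix α U' ℤ := fun i j => M i j
  have hcardU' : Fintype.card U' = h + c := by rw [Fintype.card_coe, hU'c]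
  obtain ⟨s, hs0, hs1, hs2⟩ := Int.Matrix.exists_ne_zero_int_vec_norm_le A
    (by rw [hcardU', ← hh]; omega) (by omega)
  have hnorm : max 1 ‖A‖ ≤ H := by
    refine max_le hH ?_
    rw [Matrix.norm_le_iff (by linarith)]
    intro i j
    rw [Int.norm_eq_abs]
    exact_mod_cast hM i j
  have hbound : ‖s‖ ≤ (2 * h * H) ^ a := by
    refine hs2.trans ?_
    rw [hcardU', ← hh]
    have hh1 : (1 : ℝ) ≤ h := by exact_mod_cast hα
    have hcR : (1 : ℝ) ≤ c := by exact_mod_cast hc0
    have hchR : (c : ℝ) ≤ h := by exact_mod_cast hch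
    have hc1R : (h : ℝ) ≤ a * c := by exact_mod_cast hc1
    have e1 : (((h + c : ℕ) : ℝ) * max 1 ‖A‖) ≤ 2 * h * H := by
      have e2 : ((h + c : ℕ) : ℝ) ≤ 2 * h := by push_cast; linarith
      have e3 : (0 : ℝ) ≤ max 1 ‖A‖ := le_trans zero_le_one (le_max_left _ _)
      exact mul_le_mul e2 hnorm e3 (by positivity)
    have e4 : (1 : ℝ) ≤ ((h + c : ℕ) : ℝ) * max 1 ‖A‖ := by
      have e5 : (1 : ℝ) ≤ ((h + c : ℕ) : ℝ) := by push_cast; linarith
      have e6 : (1 : ℝ) ≤ max 1 ‖A‖ := le_max_left _ _
      nlinarith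
    have e7 : ((h : ℝ) / (((h + c : ℕ) : ℝ) - h)) ≤ (a : ℝ) := by
      have : (((h + c : ℕ) : ℝ) - h) = c := by push_cast; ring
      rw [this, div_le_iff₀ (by linarith)]
      exact hc1R
    calc (((h + c : ℕ) : ℝ) * max 1 ‖A‖) ^ ((h : ℝ) / (((h + c : ℕ) : ℝ) - h))
        ≤ (((h + c : ℕ) : ℝ) * max 1 ‖A‖) ^ (a : ℝ) := Real.rpow_le_rpow_of_exponent_le e4 e7
      _ ≤ (2 * h * H) ^ (a : ℝ) := Real.rpow_le_rpow (by linarith) e1 (by positivity)
      _ = (2 * h * H) ^ a := Real.rpow_natCast _ _
  -- extend by zero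
  let w : β → ℤ := fun j => if hj : j ∈ U' then s ⟨j, hj⟩ else 0
  have hw1 : M.mulVec w = 0 := by
    funext i
    have h1 := congrFun hs1 i
    simp only [Matrix.mulVec, dotProduct, Pi.zero_apply] at h1 ⊢
    rw [← h1]
    rw [← Finset.sum_subset (Finset.subset_univ U')]
    · rw [← Finset.sum_coe_sort U' (fun j => M i j * w j)]
      refine Finset.sum_congr rfl fun j _ => ?_
      simp only [w, A, Finset.coe_mem, dif_pos]
    · intro j _ hj
      simp only [w, dif_neg hj, mul_zero]
  have hw2 : ∀ j, |(w j : ℝ)| ≤ (2 * h * H) ^ a := by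
    intro j
    by_cases hj : j ∈ U'
    · simp only [w, dif_pos hj]
      refine le_trans ?_ hbound
      have := norm_le_pi_norm s ⟨j, hj⟩
      rwa [Int.norm_eq_abs] at this
    · simp only [w, dif_neg hj, Int.cast_zero, abs_zero]
      positivity
  have hw3 : (fun j => (w j : ℚ)) ∈ T := subset_span ⟨w, fun _ => rfl, hw1, hw2⟩
  have hw4 := hU2 _ hw3 (fun j hj => by
    have : j ∉ U' := fun h => hj (hU'U h)
    simp only [w, dif_neg this, Int.cast_zero])
  apply hs0
  funext j
  have h9 : ((w j : ℤ) : ℚ) = 0 := congrFun hw4 j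
  simp only [w, Finset.coe_mem, dif_pos, Int.cast_eq_zero] at h9
  simpa using h9

end Pool.Agent.H34.NA
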